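import Pool.Agent.WCGBd.JF1

/-!
MP_064b94_an, Q1, negative answer: there is a Banach space which is not weakly compactly
generated although its bidual is weakly compactly generated.
-/

set_option autoImplicit false

namespace Pool.Agent.Results.MP_064b94_an.BidualWCG

/-- A Banach space `Z` is weakly compactly generated if there is a subset `K` of `Z` which is
compact in the weak topology and whose closed linear span is `Z`. -/
def IsWCG (𝕜 Z : Type) [RCLike 𝕜] [NormedAddCommGroup Z] [NormedSpace 𝕜 Z] : Prop :=
  ∃ K : Set Z, IsCompact (toWeakSpace 𝕜 Z '' K) ∧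
    (Submodule.span 𝕜 K).topologicalClosure = ⊤

/-- Over the real and over the complex scalars there is a Banach space `X` such that the bidual of
`X` is weakly compactly generated and `X` is not. -/
theorem result (𝕜 : Type) [RCLike 𝕜] : ∃ (X : Type) (_ : NormedAddCommGroup X)
    (_ : NormedSpace 𝕜 X) (_ : CompleteSpace X),
    IsWCG 𝕜 (StrongDual 𝕜 (StrongDual 𝕜 X)) ∧ ¬ IsWCG 𝕜 X :=
  WCGBd.main_theorem 𝕜

end Pool.Agent.Results.MP_064b94_an.BidualWCG
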